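import Pool.Agent.MP_ca1109_lc.Xh.HC
import Pool.Agent.MP_ca1109_lc.Xh.BBb

/-!
# Combinations of functions of true heavy terms times phases: terms with literals

* `tt T z J ψ x`: `ψ` of the set of the true terms with index in `J`, times the product of the
  phases `z` of the true terms.
* `At r K V g`: `g` is of this form, every variable occurs in at most `r` terms, the terms in `J`
  have mass at most `K`, the phases have mass at most `V`.
* `HCt r K V B f`: `f` is a combination of such functions with coefficients of total size `B`.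
-/

namespace Pool.Agent.MP_ca1109_lc.Pb

open Finset Pool.Agent.H66 Pool.Agent.MP_ca1109_lc.Mpg Pool.Agent.MP_ca1109_lc.Agp
open Pool.Agent.MP_ca1109_lc.Xp Pool.Agent.MP_ca1109_lc.Xg Pool.Agent.MP_ca1109_lc.Xh
open Pool.Agent.MP_ca1109_lc.Dnf (Cube ch one E mix Term)

variable {n : ℕ}

open Classical in
/-- A function of the true heavy terms times the product of the phases of the true terms. -/
noncomputable def tt {ι : Type} [Fintype ι] (T : ι → Term n) (z : ι → ℂ) (J : Finset ι)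
    (ψ : Finset ι → ℂ) (x : Cube n) : ℂ :=
  ψ (J.filter fun j => (T j).Sat x) * ∏ j, if (T j).Sat x then z j else 1

/-- The functions of this form, with heavy mass at most `K` and phases of mass at most `V`. -/
def At (r : ℕ) (K V : ℝ) (g : Cube n → ℂ) : Prop :=
  ∃ (ι : Type) (_ : Fintype ι) (T : ι → Term n) (z : ι → ℂ) (J : Finset ι) (ψ : Finset ι → ℂ),
    (∀ j, (T j).S.Nonempty) ∧ (∀ v, (univ.filter fun j => v ∈ (T j).S).card ≤ r) ∧
    (∀ j, ‖z j‖ = 1) ∧ (∀ A, ‖ψ A‖ ≤ 1) ∧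
    (∑ j, (1 / 2 : ℝ) ^ (T j).S.card * ‖1 - z j‖ ^ 2 ≤ V) ∧
    (∑ j ∈ J, (1 / 2 : ℝ) ^ (T j).S.card ≤ K) ∧ ∀ x, g x = tt T z J ψ x

theorem At.mono {r r' : ℕ} {K K' V V' : ℝ} {g : Cube n → ℂ} (h : At r K V g) (hr : r ≤ r')
    (hK : K ≤ K') (hV : V ≤ V') : At r' K' V' g := by
  obtain ⟨ι, hι, T, z, J, ψ, h1, h2, h3, h4, h5, h6, h7⟩ := h
  exact ⟨ι, hι, T, z, J, ψ, h1, fun v => (h2 v).trans hr, h3, h4, h5.trans hV, h6.trans hK, h7⟩

theorem At.one (r : ℕ) {K V : ℝ} (hK : 0 ≤ K) (hV : 0 ≤ V) : At r K V (fun _ : Cube n => 1) := by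
  refine ⟨Empty, inferInstance, fun e => e.elim, fun _ => 1, ∅, fun _ => 1, fun j => j.elim,
    fun v => by simp, fun _ => norm_one, fun _ => norm_one.le, by simpa using hV,
    by simpa using hK, fun x => by simp [tt]⟩

theorem At.mul {r r' : ℕ} {K K' V V' : ℝ} {g g' : Cube n → ℂ} (h : At r K V g)
    (h' : At r' K' V' g') : At (r + r') (K + K') (V + V') (fun x => g x * g' x) := by
  classical
  obtain ⟨ι, hι, T, z, J, ψ, h1, h2, h3, h4, h5, h6, h7⟩ := h
  obtain ⟨ι', hι', T', z', J', ψ', h1', h2', h3', h4', h5', h6', h7'⟩ := h'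
  refine ⟨ι ⊕ ι', inferInstance, Sum.elim T T', Sum.elim z z', J.disjSum J',
    fun A => ψ A.toLeft * ψ' A.toRight, ?_, fun v => ?_, ?_, fun A => ?_, ?_, ?_, fun x => ?_⟩
  · rintro (j | j)
    · exact h1 j
    · exact h1' j
  · refine le_trans (le_of_eq ?_) (add_le_add (h2 v) (h2' v))
    simp only [card_filter]
    rw [Fintype.sum_sum_type]
    rfl
  · rintro (j | j)
    · exact h3 j
    · exact h3' j
  · rw [norm_mul]
    exact mul_le_one₀ (h4 _) (norm_nonneg _) (h4' _)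
  · rw [Fintype.sum_sum_type]
    exact add_le_add h5 h5'
  · rw [sum_disjSum]
    exact add_le_add h6 h6'
  · show g x * g' x = _
    rw [h7, h7']
    have e3 : (∏ j : ι ⊕ ι', if (Sum.elim T T' j).Sat x then Sum.elim z z' j else 1) =
        (∏ j, if (T j).Sat x then z j else 1) * ∏ j, if (T' j).Sat x then z' j else 1 := by
      rw [Fintype.prod_sum_type]
      rfl
    unfold tt
    rw [e3]
    have e1 : ((J.disjSum J').filter fun j => (Sum.elim T T' j).Sat x).toLeft =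
        J.filter fun j => (T j).Sat x := by
      ext j
      simp [mem_toLeft]
    have e2 : ((J.disjSum J').filter fun j => (Sum.elim T T' j).Sat x).toRight =
        J'.filter fun j => (T' j).Sat x := by
      ext j
      simp [mem_toRight]
    beta_reduce
    rw [e1, e2]
    ring

/-- Monomials in the literals given by the polarity vector `s`. -/
theorem At.of_pt {r : ℕ} {K V : ℝ} {M H : Finset (Finset (Fin n))}
    {ψ : Finset (Finset (Fin n)) → ℂ} {ζ : Finset (Fin n) → ℂ} (h : HS r K V M H ψ ζ)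
    (s : Cube n) : At r K (4 * V) (fun x => pt ψ H ζ M (xo x s)) := by
  classical
  set T : {m // m ∈ M} → Term n := fun j => ⟨j.1, fun i => !(s i)⟩ with hT
  set J : Finset {m // m ∈ M} := univ.filter fun j => j.1 ∈ H with hJ
  have hsat : ∀ (m : {m // m ∈ M}) (x : Cube n), (T m).Sat x ↔ Tr m.1 (xo x s) := by
    intro m x
    unfold Tr Term.Sat xo
    refine forall_congr' fun i => forall_congr' fun _ => ?_
    simp only [hT]
    cases x i <;> cases s i <;> decide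
  refine ⟨{m // m ∈ M}, inferInstance, T, fun j => ζ j.1, J, fun A => ψ (A.image fun j => j.1),
    fun j => nonempty_iff_ne_empty.2 (h.ne j.1 j.2), ?_, fun j => h.zeta _ j.2, fun A => h.psi _,
    ?_, ?_, fun x => ?_⟩
  · intro v
    refine le_trans (le_of_eq ?_) (h.rd v)
    rw [← card_map (Function.Embedding.subtype _)]
    congr 1
    ext m
    simp only [hT, mem_map, mem_filter, mem_univ, true_and, Function.Embedding.subtype_apply]
    constructor
    · rintro ⟨j, hj, rfl⟩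
      exact ⟨j.2, hj⟩
    · rintro ⟨hm, hv⟩
      exact ⟨⟨m, hm⟩, hv, rfl⟩
  · rw [Finset.sum_coe_sort M fun m => (1 / 2 : ℝ) ^ m.card * ‖1 - ζ m‖ ^ 2]
    calc ∑ m ∈ M, (1 / 2 : ℝ) ^ m.card * ‖1 - ζ m‖ ^ 2
        = 4 * ∑ m ∈ M, gap ζ m * (1 / 2 : ℝ) ^ m.card := by
          rw [mul_sum]
          exact sum_congr rfl fun m _ => by unfold gap; ring
      _ ≤ 4 * V := by linarith [h.mass]
  · rw [hJ, sum_filter]
    exact (hbbb_sum_H h.sub fun m => (1 / 2 : ℝ) ^ m.card).le.trans h.lam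
  · show pt ψ H ζ M (xo x s) = _
    unfold pt tt
    congr 1
    · congr 1
      ext m
      unfold tru
      simp only [hJ, mem_image, mem_filter, mem_univ, true_and]
      constructor
      · rintro ⟨hm, hs⟩
        exact ⟨⟨m, h.sub hm⟩, ⟨hm, (hsat _ x).2 hs⟩, rfl⟩
      · rintro ⟨j, ⟨hj, hs⟩, rfl⟩
        exact ⟨hj, (hsat _ x).1 hs⟩
    · unfold pr
      rw [← Finset.prod_coe_sort M]
      exact prod_congr rfl fun j _ => if_congr (hsat j x).symm rfl rfl

/-- A combination of such functions. -/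
def HCt (r : ℕ) (K V B : ℝ) (f : Cube n → ℂ) : Prop :=
  ∃ (κ : Type) (_ : Fintype κ) (c : κ → ℂ) (g : κ → Cube n → ℂ),
    (∀ a, At r K V (g a)) ∧ ∑ a, ‖c a‖ ≤ B ∧ ∀ x, f x = ∑ a, c a * g a x

theorem HCt.mono {r r' : ℕ} {K K' V V' B B' : ℝ} {f : Cube n → ℂ} (h : HCt r K V B f) (hr : r ≤ r')
    (hK : K ≤ K') (hV : V ≤ V') (hB : B ≤ B') : HCt r' K' V' B' f := by
  obtain ⟨κ, hκ, c, g, h1, h2, h3⟩ := h
  exact ⟨κ, hκ, c, g, fun a => (h1 a).mono hr hK hV, h2.trans hB, h3⟩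

theorem HCt.of_eq {r : ℕ} {K V B : ℝ} {f g : Cube n → ℂ} (h : HCt r K V B f)
    (hfg : ∀ x, g x = f x) : HCt r K V B g := by
  have : g = f := funext hfg
  rwa [this]

theorem HCt.nonneg {r : ℕ} {K V B : ℝ} {f : Cube n → ℂ} (h : HCt r K V B f) : 0 ≤ B := by
  obtain ⟨κ, hκ, c, g, h1, h2, h3⟩ := h
  exact (sum_nonneg fun i _ => norm_nonneg (c i)).trans h2

theorem HCt.one (r : ℕ) {K V : ℝ} (hK : 0 ≤ K) (hV : 0 ≤ V) :
    HCt r K V 1 (fun _ : Cube n => 1) := by
  refine ⟨Unit, inferInstance, fun _ => 1, fun _ _ => 1, fun _ => At.one r hK hV, ?_, fun x => ?_⟩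
  · simp
  · simp

theorem HCt.add {r : ℕ} {K V B B' : ℝ} {f g : Cube n → ℂ} (h : HCt r K V B f)
    (h' : HCt r K V B' g) : HCt r K V (B + B') (fun x => f x + g x) := by
  obtain ⟨κ, hκ, c, p, h1, h2, h3⟩ := h
  obtain ⟨κ', hκ', c', p', h1', h2', h3'⟩ := h'
  refine ⟨κ ⊕ κ', inferInstance, Sum.elim c c', Sum.elim p p', ?_, ?_, fun x => ?_⟩
  · rintro (i | i)
    · exact h1 i
    · exact h1' i
  · rw [Fintype.sum_sum_type]
    exact add_le_add h2 h2'
  · show f x + g x = _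
    rw [Fintype.sum_sum_type, h3, h3']
    rfl

theorem HCt.smul {r : ℕ} {K V B : ℝ} {f : Cube n → ℂ} (a : ℂ) (h : HCt r K V B f) :
    HCt r K V (‖a‖ * B) (fun x => a * f x) := by
  obtain ⟨κ, hκ, c, g, h1, h2, h3⟩ := h
  refine ⟨κ, hκ, fun i => a * c i, g, h1, ?_, fun x => ?_⟩
  · simp only [norm_mul, ← mul_sum]
    exact mul_le_mul_of_nonneg_left h2 (norm_nonneg _)
  · show a * f x = _
    rw [h3, mul_sum]
    exact sum_congr rfl fun i _ => by ring

theorem HCt.sum {α : Type*} (s : Finset α) {r : ℕ} {K V : ℝ} (hK : 0 ≤ K) (hV : 0 ≤ V)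
    {B : α → ℝ} {f : α → Cube n → ℂ} (h : ∀ a ∈ s, HCt r K V (B a) (f a)) :
    HCt r K V (∑ a ∈ s, B a) (fun x => ∑ a ∈ s, f a x) := by
  classical
  induction s using Finset.induction_on with
  | empty =>
    have h1 := (HCt.one (n := n) r hK hV).smul 0
    simp only [norm_zero, zero_mul] at h1
    simpa using h1
  | insert a s ha ih =>
    have h1 := (h a (mem_insert_self _ _)).add (ih fun i hi => h i (mem_insert_of_mem hi))
    rw [sum_insert ha]
    exact h1.of_eq fun x => sum_insert ha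

theorem HCt.mul {r r' : ℕ} {K K' V V' B B' : ℝ} {f g : Cube n → ℂ} (h : HCt r K V B f)
    (h' : HCt r' K' V' B' g) : HCt (r + r') (K + K') (V + V') (B * B') (fun x => f x * g x) := by
  obtain ⟨κ, hκ, c, p, h1, h2, h3⟩ := h
  obtain ⟨κ', hκ', c', p', h1', h2', h3'⟩ := h'
  refine ⟨κ × κ', inferInstance, fun i => c i.1 * c' i.2, fun i x => p i.1 x * p' i.2 x,
    fun i => (h1 i.1).mul (h1' i.2), ?_, fun x => ?_⟩
  · rw [Fintype.sum_prod_type]
    simp only [norm_mul, ← mul_sum, ← sum_mul]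
    exact mul_le_mul h2 h2' (sum_nonneg fun _ _ => norm_nonneg _)
      ((sum_nonneg fun _ _ => norm_nonneg _).trans h2)
  · show f x * g x = _
    rw [h3, h3', Fintype.sum_prod_type, sum_mul_sum]
    exact sum_congr rfl fun i _ => sum_congr rfl fun j _ => by ring

theorem HCt.prod {α : Type*} (s : Finset α) {r : ℕ} {K V B : ℝ}
    {f : α → Cube n → ℂ} (h : ∀ a ∈ s, HCt r K V B (f a)) :
    HCt (s.card * r) (s.card * K) (s.card * V) (B ^ s.card) (fun x => ∏ a ∈ s, f a x) := by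
  classical
  induction s using Finset.induction_on with
  | empty =>
    have h1 := HCt.one (n := n) 0 le_rfl le_rfl (K := 0) (V := 0)
    simpa using h1
  | insert a s ha ih =>
    have h1 := (h a (mem_insert_self _ _)).mul (ih fun i hi => h i (mem_insert_of_mem hi))
    have h2 : HCt (r + s.card * r) (K + s.card * K) (V + s.card * V) (B * B ^ s.card)
        (fun x => ∏ a ∈ insert a s, f a x) := h1.of_eq fun x => prod_insert ha
    rw [card_insert_of_notMem ha]
    refine h2.mono (le_of_eq (by ring)) (le_of_eq (by push_cast; ring))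
      (le_of_eq (by push_cast; ring)) (le_of_eq (by ring))

/-- Monomials in the literals given by the polarity vector `s`. -/
theorem HCt.of_hcb {r : ℕ} {K V B : ℝ} {f : Cube n → ℂ} (h : HCb r K V B f) (s : Cube n) :
    HCt r K (4 * V) B (fun x => f (xo x s)) := by
  obtain ⟨ι, hι, c, M, H, ψ, ζ, h1, h2, h3⟩ := h
  exact ⟨ι, hι, c, fun j x => pt (ψ j) (H j) (ζ j) (M j) (xo x s), fun j => At.of_pt (h1 j) s, h2,
    fun x => h3 _⟩

/-- The string `Y ω` fools these functions. -/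
def FoolA (r : ℕ) (K V ε₀ : ℝ) {Ω : Type} [Fintype Ω] (Y : Ω → Cube n) : Prop :=
  ∀ g : Cube n → ℂ, At r K V g → ‖(av fun ω => g (Y ω)) - av g‖ ≤ ε₀

theorem FoolA.err {r : ℕ} {K V B ε₀ : ℝ} (hε : 0 ≤ ε₀) {Ω : Type} [Fintype Ω] {Y : Ω → Cube n}
    (hY : FoolA r K V ε₀ Y) {f : Cube n → ℂ} (hf : HCt r K V B f) :
    ‖(av fun ω => f (Y ω)) - av f‖ ≤ B * ε₀ := by
  obtain ⟨κ, hκ, c, g, h1, h2, h3⟩ := hf
  have e : ∀ {A : Type} [Fintype A] (Z : A → Cube n),
      av (fun ω => f (Z ω)) = ∑ i, c i * av (fun ω => g i (Z ω)) := by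
    intro A _ Z
    unfold av
    simp only [h3]
    rw [sum_comm, sum_div]
    refine sum_congr rfl fun i _ => ?_
    rw [← mul_sum, mul_div_assoc]
  have e2 := e (A := Cube n) id
  simp only [id] at e2
  have e3 : av f = av fun ω => f ω := rfl
  rw [e Y, e3, e2, ← sum_sub_distrib]
  refine (norm_sum_le _ _).trans ?_
  refine (sum_le_sum (g := fun i => ‖c i‖ * ε₀) fun i _ => ?_).trans ?_
  · rw [← mul_sub, norm_mul]
    exact mul_le_mul_of_nonneg_left (hY _ (h1 i)) (norm_nonneg _)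
  · rw [← sum_mul]
    exact mul_le_mul_of_nonneg_right h2 hε

theorem FoolA.mono {r r' : ℕ} {K K' V V' ε₀ ε₁ : ℝ} {Ω : Type} [Fintype Ω] {Y : Ω → Cube n}
    (hY : FoolA r' K' V' ε₀ Y) (hr : r ≤ r') (hK : K ≤ K') (hV : V ≤ V') (hε : ε₀ ≤ ε₁) :
    FoolA r K V ε₁ Y := fun g h => (hY g (h.mono hr hK hV)).trans hε

/-- Shifts of such a string fool the products over monomials. -/
theorem FoolA.foolb {r : ℕ} {K V ε₀ : ℝ} {Ω : Type} [Fintype Ω] {Y : Ω → Cube n}
    (hY : FoolA r K (4 * V) ε₀ Y) (s : Cube n) : Foolb r K V ε₀ (fun ω => xo (Y ω) s) := by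
  intro M H ψ ζ h
  have h1 := hY _ (At.of_pt h s)
  rwa [av_xo] at h1

theorem FoolA.unif (r : ℕ) (K V : ℝ) {ε₀ : ℝ} (hε : 0 ≤ ε₀) :
    FoolA r K V ε₀ (id : Cube n → Cube n) := by
  intro g _
  simpa using hε

/-- Small bias fools these functions. -/
theorem fool_bias (r : ℕ) (K V : ℝ) {ε : ℝ} (hε : 0 < ε) : ∃ C n₀ : ℕ, ∀ n ≥ n₀,
    ∀ {Ω : Type} [Fintype Ω] [Nonempty Ω] (Y : Ω → Cube n) (δ : ℝ), 0 ≤ δ → δ * (n : ℝ) ^ C ≤ 1 →
      Bias δ Y → FoolA r K V ε Y := by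
  obtain ⟨C, n₀, hC⟩ := hbbb_gen r K V hε
  refine ⟨C, n₀, fun n hn Ω _ _ Y δ hδ hδn hY g hg => ?_⟩
  obtain ⟨ι, hι, T, z, J, ψ, h1, h2, h3, h4, h5, h6, h7⟩ := hg
  have h8 := hC n hn T z J ψ h1 h2 h3 h4 h5 h6 Y δ hδ hδn hY
  have e1 : (fun ω => g (Y ω)) = fun ω => tt T z J ψ (Y ω) := funext fun ω => h7 _
  have e2 : g = fun x => tt T z J ψ x := funext h7
  rw [e1, e2]
  exact h8

end Pool.Agent.MP_ca1109_lc.Pb
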