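import Pool.Agent.MP_ca1109_lc.Pb.TB
import Pool.Agent.MP_ca1109_lc.Pb.AT
import Pool.Agent.MP_ca1109_lc.Xp.GN
import Pool.Agent.MP_ca1109_lc.Agp.G3
import Pool.Agent.MP_ca1109_lc.Mpg.G0

/-!
# Small bias fools Boolean functions of polynomial threshold functions of bounded read
-/

namespace Pool.Agent.MP_ca1109_lc.Pb

open Finset Pool.Agent.H66 Pool.Agent.MP_ca1109_lc.Mpg Pool.Agent.MP_ca1109_lc.Agp
open Pool.Agent.MP_ca1109_lc.Xp Pool.Agent.MP_ca1109_lc.Xg Pool.Agent.MP_ca1109_lc.Xh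
open Pool.Agent.MP_ca1109_lc.Dnf (Cube ch one E mix Term)

variable {n : ℕ}

open Classical in
/-- `T` is a Boolean function of `k` polynomial threshold functions with real coefficients. The
`j`-th polynomial is a sum of monomials in the literals given by the polarity vector `s j` (the
`i`-th literal is true if `x i = s j i`); every variable occurs in at most `r` of its monomials. -/
def PTest (r k n : ℕ) (T : (Fin n → Bool) → Bool) : Prop :=
  ∃ (s : Fin k → Fin n → Bool) (u : Fin k → Finset (Fin n) → ℝ) (θ : Fin k → ℝ)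
    (F : (Fin k → Bool) → Bool),
    (∀ j i, {m : Finset (Fin n) | i ∈ m ∧ u j m ≠ 0}.ncard ≤ r) ∧
    ∀ x, T x = F fun j => decide (θ j ≤ ∑ m : Finset (Fin n), if ∀ i ∈ m, x i = s j i then u j m else 0)

/-! ## Products -/

theorem prod_diff {α : Type*} (s : Finset α) {a b : α → ℂ} (ha : ∀ i ∈ s, ‖a i‖ ≤ 3)
    (hb : ∀ i ∈ s, ‖b i‖ ≤ 3) :
    ‖∏ i ∈ s, a i - ∏ i ∈ s, b i‖ ≤ 3 ^ s.card * ∑ i ∈ s, ‖a i - b i‖ := by
  classical
  induction s using Finset.induction_on with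
  | empty => simp
  | insert i s hi ih =>
    rw [prod_insert hi, prod_insert hi, sum_insert hi, card_insert_of_notMem hi]
    have h1 : a i * ∏ j ∈ s, a j - b i * ∏ j ∈ s, b j =
        (a i - b i) * ∏ j ∈ s, a j + b i * (∏ j ∈ s, a j - ∏ j ∈ s, b j) := by ring
    have h2 : ‖∏ j ∈ s, a j‖ ≤ 3 ^ s.card := by
      rw [norm_prod]
      refine (prod_le_prod (fun j _ => norm_nonneg _) fun j hj =>
        ha j (mem_insert_of_mem hj)).trans ?_
      rw [prod_const]
    have h3 := ih (fun j hj => ha j (mem_insert_of_mem hj)) fun j hj => hb j (mem_insert_of_mem hj)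
    rw [h1]
    refine (norm_add_le _ _).trans ?_
    rw [norm_mul, norm_mul]
    have h4 := hb i (mem_insert_self _ _)
    have h5 : 0 ≤ ∑ j ∈ s, ‖a j - b j‖ := sum_nonneg fun _ _ => norm_nonneg _
    have h6 : ‖a i - b i‖ * ‖∏ j ∈ s, a j‖ ≤ ‖a i - b i‖ * 3 ^ s.card :=
      mul_le_mul_of_nonneg_left h2 (norm_nonneg _)
    have h7 : ‖b i‖ * ‖∏ j ∈ s, a j - ∏ j ∈ s, b j‖ ≤ 3 * (3 ^ s.card * ∑ j ∈ s, ‖a j - b j‖) :=
      mul_le_mul h4 h3 (norm_nonneg _) (by norm_num)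
    have h8 : (0 : ℝ) < 3 ^ s.card := by positivity
    have h9 : 0 ≤ ‖a i - b i‖ := norm_nonneg _
    have h10 : ‖a i - b i‖ * 3 ^ s.card ≤ 3 ^ (s.card + 1) * ‖a i - b i‖ := by
      rw [pow_succ]
      nlinarith
    rw [mul_add, pow_succ]
    rw [pow_succ] at h10
    nlinarith

/-- The choice of `a` or `1 - a`. -/
def pk (b : Bool) (a : ℂ) : ℂ := if b then a else 1 - a

theorem pk_diff (b : Bool) (a a' : ℂ) : ‖pk b a - pk b a'‖ = ‖a - a'‖ := by
  unfold pk
  cases b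
  · simp only [Bool.false_eq_true, if_false]
    rw [show 1 - a - (1 - a') = -(a - a') by ring, norm_neg]
  · simp only [if_true]

theorem pk_norm (b : Bool) {a : ℂ} (h : ‖a‖ ≤ 2) : ‖pk b a‖ ≤ 3 := by
  unfold pk
  cases b
  · simp only [Bool.false_eq_true, if_false]
    have := norm_sub_le 1 a
    rw [norm_one] at this
    linarith
  · simp only [if_true]
    linarith

/-- The expansion of a Boolean function. -/
theorem pk_expand {k : ℕ} (F : (Fin k → Bool) → Bool) (β : Fin k → Bool) :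
    ((ind (F β) : ℝ) : ℂ) = ∑ b : Fin k → Bool, ((ind (F b) : ℝ) : ℂ) *
      ∏ j, pk (b j) ((ind (β j) : ℝ) : ℂ) := by
  classical
  have h1 : ∀ b : Fin k → Bool, ∏ j, pk (b j) ((ind (β j) : ℝ) : ℂ) = if b = β then 1 else 0 := by
    intro b
    by_cases h : b = β
    · rw [if_pos h, h]
      refine prod_eq_one fun j _ => ?_
      unfold pk ind
      cases β j <;> simp
    · rw [if_neg h]
      obtain ⟨j, hj⟩ := Function.ne_iff.1 h
      refine prod_eq_zero (mem_univ j) ?_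
      unfold pk ind
      cases hb : b j <;> cases hβ : β j
      · exact absurd (hb.trans hβ.symm) hj
      · simp
      · simp
      · exact absurd (hb.trans hβ.symm) hj
  simp only [h1]
  rw [Finset.sum_eq_single β]
  · simp
  · intro b _ hb
    simp [hb]
  · intro h
    exact absurd (mem_univ _) h

theorem norm_ind_le (b : Bool) : ‖((ind b : ℝ) : ℂ)‖ ≤ 1 := by
  cases b <;> simp [ind]

theorem norm_av_le {Ω : Type} [Fintype Ω] (f : Ω → ℂ) : ‖av f‖ ≤ avg fun ω => ‖f ω‖ := by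
  unfold av avg
  rw [norm_div, Complex.norm_natCast]
  exact div_le_div_of_nonneg_right (norm_sum_le _ _) (Nat.cast_nonneg _)

theorem av_sub {Ω : Type} [Fintype Ω] (f g : Ω → ℂ) : (av fun ω => f ω - g ω) = av f - av g := by
  unfold av
  rw [sum_sub_distrib, sub_div]

theorem av_ind {Ω : Type} [Fintype Ω] (f : Ω → Bool) :
    av (fun ω => ((ind (f ω) : ℝ) : ℂ)) = ((avg fun ω => ind (f ω) : ℝ) : ℂ) := by
  unfold av avg
  push_cast
  rfl

/-! ## The test -/

/-- The error for strings which fool products over terms. -/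
theorem ptest_fool (r k : ℕ) {ε : ℝ} (hε : 0 < ε) : ∃ (K V ε₁ : ℝ), 0 < ε₁ ∧ ∀ (n : ℕ)
    (T : (Fin n → Bool) → Bool), PTest r k n T →
      ∀ {Ω : Type} [Fintype Ω] [Nonempty Ω] (Y : Ω → Cube n), FoolA (k * r) K V ε₁ Y →
        |(avg fun ω => ind (T (Y ω))) - prob T| ≤ ε := by
  classical
  set ε' : ℝ := min 1 (ε / (4 * (6 ^ k * ((k : ℝ) + 1)))) with hε'
  have hε'0 : 0 < ε' := lt_min one_pos (by positivity)
  have hε'1 : ε' ≤ 1 := min_le_left _ _
  have hε'2 : ε' ≤ ε / (4 * (6 ^ k * ((k : ℝ) + 1))) := min_le_right _ _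
  obtain ⟨K, V, B, ε₀, hK, hV, hB, hε₀, H⟩ := thrb r hε'0
  set ε₁ : ℝ := min ε₀ (ε / (2 * (2 ^ k * (1 + B) ^ k))) with hε₁
  have hε₁0 : 0 < ε₁ := lt_min hε₀ (by positivity)
  have hε₁1 : ε₁ ≤ ε₀ := min_le_left _ _
  have hε₁2 : ε₁ ≤ ε / (2 * (2 ^ k * (1 + B) ^ k)) := min_le_right _ _
  refine ⟨k * K, k * (4 * V), ε₁, hε₁0, fun n T hT Ω _ _ Y hY => ?_⟩
  obtain ⟨s, u, θ, F, hr, hTx⟩ := hT
  -- the families
  set M : Fin k → Finset (Finset (Fin n)) := fun j => univ.filter fun m => u j m ≠ 0 with hM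
  have hMr : ∀ j, Rd r (M j) := by
    intro j i
    refine le_trans (le_of_eq ?_) (hr j i)
    rw [← Set.ncard_coe_finset]
    congr 1
    ext m
    simp [hM, and_comm]
  set s' : Fin k → Cube n := fun j i => !(s j i) with hs'
  have hst : ∀ j x, (∑ m : Finset (Fin n), if ∀ i ∈ m, x i = s j i then u j m else 0) =
      rst (M j) (u j) (xo x (s' j)) := by
    intro j x
    unfold rst
    rw [hM]
    simp only
    rw [sum_filter]
    refine sum_congr rfl fun m _ => ?_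
    have h1 : (∀ i ∈ m, x i = s j i) ↔ Tr m (xo x (s' j)) := by
      unfold Tr xo
      refine forall_congr' fun i => forall_congr' fun _ => ?_
      simp only [hs']
      cases x i <;> cases s j i <;> decide
    unfold mon
    by_cases h2 : u j m = 0
    · simp [h2]
    · rw [if_pos h2]
      by_cases h3 : Tr m (xo x (s' j))
      · rw [if_pos (h1.2 h3), Dnf.one_true h3, mul_one]
      · rw [if_neg fun h4 => h3 (h1.1 h4), Dnf.one_false h3, mul_zero]
  choose f hf hfb hfe using fun j => H n (M j) (u j) (θ j) (hMr j)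
  set β : Cube n → Fin k → Bool := fun x j => decide (θ j ≤ rst (M j) (u j) (xo x (s' j))) with hβ
  have hTβ : ∀ x, T x = F (β x) := by
    intro x
    rw [hTx x]
    congr 1
    funext j
    rw [hst j x]
  have hβi : ∀ x j, ((ind (β x j) : ℝ) : ℂ) = ((one (θ j ≤ rst (M j) (u j) (xo x (s' j))) : ℝ) : ℂ) := by
    intro x j
    simp only [hβ]
    by_cases h : θ j ≤ rst (M j) (u j) (xo x (s' j))
    · rw [Dnf.one_true h, decide_eq_true h]
      rfl
    · rw [Dnf.one_false h, decide_eq_false h]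
      rfl
  set g : Fin k → Cube n → ℂ := fun j x => f j (xo x (s' j)) with hg
  have hgt : ∀ j, HCt r K (4 * V) B (g j) := fun j => HCt.of_hcb (hf j) (s' j)
  have hgn : ∀ j x, ‖g j x‖ ≤ 2 := by
    intro j x
    have := hfb j (xo x (s' j))
    simp only [hg]
    linarith
  -- the combination
  set P : Cube n → ℂ := fun x => ∑ b : Fin k → Bool, ((ind (F b) : ℝ) : ℂ) *
    ∏ j, pk (b j) (g j x) with hP
  have hPt : HCt (k * r) (k * K) (k * (4 * V)) (2 ^ k * (1 + B) ^ k) P := by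
    have h1 : ∀ b : Fin k → Bool, HCt (k * r) (k * K) (k * (4 * V)) ((1 + B) ^ k)
        (fun x => ((ind (F b) : ℝ) : ℂ) * ∏ j, pk (b j) (g j x)) := by
      intro b
      have h2 : ∀ j ∈ (univ : Finset (Fin k)), HCt r K (4 * V) (1 + B) (fun x => pk (b j) (g j x)) := by
        intro j _
        have h3 := (HCt.one (n := n) r hK (show 0 ≤ 4 * V by positivity)).add ((hgt j).smul (-1))
        rw [norm_neg, norm_one, one_mul] at h3
        unfold pk
        cases b j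
        · exact h3.of_eq fun x => by simp only [Bool.false_eq_true, if_false]; ring
        · exact ((hgt j).mono le_rfl le_rfl le_rfl (by linarith)).of_eq fun x => by simp
      have h4 := HCt.prod univ h2
      rw [card_univ, Fintype.card_fin] at h4
      refine (h4.smul ((ind (F b) : ℝ) : ℂ)).mono le_rfl le_rfl le_rfl ?_
      have h5 := norm_ind_le (F b)
      have h6 : 0 ≤ (1 + B) ^ k := by positivity
      nlinarith
    have h2 := HCt.sum (n := n) (univ : Finset (Fin k → Bool)) (r := k * r) (K := k * K)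
      (V := k * (4 * V)) (by positivity) (by positivity) (B := fun _ => (1 + B) ^ k)
      (fun b _ => h1 b)
    refine h2.mono le_rfl le_rfl le_rfl (le_of_eq ?_)
    simp
  -- pointwise
  have hpt : ∀ x, ‖((ind (T x) : ℝ) : ℂ) - P x‖ ≤ 6 ^ k * ∑ j,
      ‖((one (θ j ≤ rst (M j) (u j) (xo x (s' j))) : ℝ) : ℂ) - f j (xo x (s' j))‖ := by
    intro x
    rw [hTβ x, pk_expand F (β x)]
    simp only [hP]
    rw [← sum_sub_distrib]
    refine (norm_sum_le _ _).trans ?_
    have h1 : ∀ b ∈ (univ : Finset (Fin k → Bool)),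
        ‖((ind (F b) : ℝ) : ℂ) * ∏ j, pk (b j) ((ind (β x j) : ℝ) : ℂ) -
          ((ind (F b) : ℝ) : ℂ) * ∏ j, pk (b j) (g j x)‖ ≤
        3 ^ k * ∑ j, ‖((one (θ j ≤ rst (M j) (u j) (xo x (s' j))) : ℝ) : ℂ) -
          f j (xo x (s' j))‖ := by
      intro b _
      rw [← mul_sub, norm_mul]
      have h2 := prod_diff (univ : Finset (Fin k)) (a := fun j => pk (b j) ((ind (β x j) : ℝ) : ℂ))
        (b := fun j => pk (b j) (g j x))
        (fun j _ => pk_norm _ ((norm_ind_le _).trans (by norm_num))) fun j _ => pk_norm _ (hgn j x)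
      rw [card_univ, Fintype.card_fin] at h2
      have h3 : ∑ j, ‖pk (b j) ((ind (β x j) : ℝ) : ℂ) - pk (b j) (g j x)‖ =
          ∑ j, ‖((one (θ j ≤ rst (M j) (u j) (xo x (s' j))) : ℝ) : ℂ) - f j (xo x (s' j))‖ := by
        refine sum_congr rfl fun j _ => ?_
        rw [pk_diff, hβi x j]
      rw [h3] at h2
      have h4 := norm_ind_le (F b)
      have h5 := norm_nonneg (∏ j, pk (b j) ((ind (β x j) : ℝ) : ℂ) - ∏ j, pk (b j) (g j x))
      nlinarith
    refine (sum_le_sum h1).trans (le_of_eq ?_)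
    rw [sum_const, card_univ, Fintype.card_fun, Fintype.card_bool, Fintype.card_fin, nsmul_eq_mul]
    push_cast
    rw [← mul_assoc, ← mul_pow]
    norm_num
  -- the average of the error
  have havg : ∀ {Ω' : Type} [Fintype Ω'] [Nonempty Ω'] (Z : Ω' → Cube n),
      FoolA (k * r) (k * K) (k * (4 * V)) ε₁ Z →
      ‖((avg fun ω => ind (T (Z ω)) : ℝ) : ℂ) - av fun ω => P (Z ω)‖ ≤ ε / 4 := by
    intro Ω' _ _ Z hZ
    rw [← av_ind, ← av_sub]
    refine (norm_av_le _).trans ?_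
    refine (avg_mono fun ω => hpt (Z ω)).trans ?_
    rw [avg_mul_left, avg_sum]
    have h1 : ∀ j ∈ (univ : Finset (Fin k)), (avg fun ω =>
        ‖((one (θ j ≤ rst (M j) (u j) (xo (Z ω) (s' j))) : ℝ) : ℂ) - f j (xo (Z ω) (s' j))‖) ≤ ε' := by
      intro j _
      have hk : 1 ≤ k := Fin.pos j
      have hk' : (1 : ℝ) ≤ k := by exact_mod_cast hk
      have h2 : FoolA r K (4 * V) ε₀ Z := by
        refine hZ.mono (Nat.le_mul_of_pos_left r hk) ?_ ?_ hε₁1
        · nlinarith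
        · nlinarith
      exact hfe j (fun ω => xo (Z ω) (s' j)) (h2.foolb (s' j))
    have h2 := sum_le_sum h1
    rw [sum_const, card_univ, Fintype.card_fin, nsmul_eq_mul] at h2
    have h3 : (k : ℝ) * ε' ≤ ((k : ℝ) + 1) * (ε / (4 * (6 ^ k * ((k : ℝ) + 1)))) :=
      mul_le_mul (by linarith) hε'2 hε'0.le (by positivity)
    have h4 : (6 : ℝ) ^ k * (((k : ℝ) + 1) * (ε / (4 * (6 ^ k * ((k : ℝ) + 1))))) = ε / 4 := by
      field_simp
    calc (6 : ℝ) ^ k * _ ≤ 6 ^ k * ((k : ℝ) * ε') := mul_le_mul_of_nonneg_left h2 (by positivity)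
      _ ≤ 6 ^ k * (((k : ℝ) + 1) * (ε / (4 * (6 ^ k * ((k : ℝ) + 1))))) :=
          mul_le_mul_of_nonneg_left h3 (by positivity)
      _ = ε / 4 := h4
  have e1 := havg Y hY
  have e2 := havg (id : Cube n → Cube n) (FoolA.unif _ _ _ hε₁0.le)
  have e3 := hY.err hε₁0.le hPt
  have e4 : (2 ^ k * (1 + B) ^ k) * ε₁ ≤ ε / 2 := by
    have h1 : (0 : ℝ) < 2 ^ k * (1 + B) ^ k := by positivity
    calc (2 ^ k * (1 + B) ^ k) * ε₁ ≤ (2 ^ k * (1 + B) ^ k) * (ε / (2 * (2 ^ k * (1 + B) ^ k))) :=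
          mul_le_mul_of_nonneg_left hε₁2 h1.le
      _ = ε / 2 := by field_simp
  rw [prob_eq_avg, ← Real.norm_eq_abs, ← Complex.norm_real, Complex.ofReal_sub]
  have e5 : (((avg fun ω => ind (T (Y ω)) : ℝ) : ℂ) - ((avg fun x => ind (T x) : ℝ) : ℂ)) =
      (((avg fun ω => ind (T (Y ω)) : ℝ) : ℂ) - av fun ω => P (Y ω)) +
      ((av fun ω => P (Y ω)) - av P) +
      -(((avg fun x : Cube n => ind (T (id x)) : ℝ) : ℂ) - av fun x : Cube n => P (id x)) := by
    simp only [id]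
    ring
  rw [e5]
  refine (norm_add_le _ _).trans ?_
  rw [norm_neg]
  have e6 := norm_add_le (((avg fun ω => ind (T (Y ω)) : ℝ) : ℂ) - av fun ω => P (Y ω))
    ((av fun ω => P (Y ω)) - av P)
  linarith

/-- Every distribution of small bias fools all Boolean functions of `k` polynomial threshold
functions of read `r`. -/
theorem bias_fools (r k : ℕ) {ε : ℝ} (hε : 0 < ε) : ∃ C n₀ : ℕ, ∀ n ≥ n₀,
    ∀ (T : (Fin n → Bool) → Bool), PTest r k n T →
      ∀ {Ω : Type} [Fintype Ω] [Nonempty Ω] (Y : Ω → Cube n) (δ : ℝ), 0 ≤ δ →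
        δ * (n : ℝ) ^ C ≤ 1 → Bias δ Y → |(avg fun ω => ind (T (Y ω))) - prob T| ≤ ε := by
  obtain ⟨K, V, ε₁, hε₁, H⟩ := ptest_fool r k hε
  obtain ⟨C, n₀, hC⟩ := fool_bias (k * r) K V hε₁
  exact ⟨C, n₀, fun n hn T hT Ω _ _ Y δ hδ hδn hY => H n T hT Y (hC n hn Y δ hδ hδn hY)⟩

/-- Larger classes for small `n` do not matter. -/
theorem pb_eventually {𝒯 𝒯' : ∀ n : ℕ, ((Fin n → Bool) → Bool) → Prop} {ε : ℝ}
    (h : LogGen 𝒯 ε) (n₀ : ℕ) (h' : ∀ n ≥ n₀, ∀ T, 𝒯' n T → 𝒯 n T) : LogGen 𝒯' ε := by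
  obtain ⟨D, G, hD, hG, hl, c, hc⟩ := h
  refine ⟨D, G, hD, hG, hl, c, ?_⟩
  filter_upwards [hc, Filter.eventually_ge_atTop n₀] with n hn hn'
  exact ⟨hn.1, hn.2.1, fun T hT => hn.2.2 T (h' n hn' T hT)⟩

theorem logGen_ptest (r k : ℕ) {ε : ℝ} (hε : 0 < ε) : LogGen (PTest r k) ε := by
  obtain ⟨C, n₀, hC⟩ := bias_fools r k hε
  obtain ⟨E, G, hG, H⟩ := Hyb.small_bias_poly C one_pos
  refine pb_eventually (𝒯 := fun n T => n₀ ≤ n ∧ PTest r k n T)
    (logGen_of hG fun n T hT => ?_) n₀ fun n hn T hT => ⟨hn, hT⟩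
  have hne : Nonempty (Fin (2 ^ E n)) := ⟨⟨0, by positivity⟩⟩
  have h1 := hC n hT.1 T hT.2 (fun p : Fin (2 ^ E n) => out G n p) (1 / ((n : ℝ) + 1) ^ C)
    (by positivity) ?_ (gn_bias (H n))
  · have h2 : (avg fun p : Fin (2 ^ E n) => ind (T (out G n p))) =
        nr (2 ^ E n) (fun p => ind (T (out G n p))) := by
      unfold avg nr
      rw [Fintype.card_fin, Fin.sum_univ_eq_sum_range (fun p => ind (T (out G n p)))]
    rwa [h2] at h1
  · rw [one_div, inv_mul_le_iff₀ (by positivity), mul_one]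
    exact pow_le_pow_left₀ (Nat.cast_nonneg _) (by linarith) C

end Pool.Agent.MP_ca1109_lc.Pb
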