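import Pool.Agent.MP_ca1109_lc.Xh.AC
import Pool.Agent.MP_ca1109_lc.Xh.SC
import Pool.Agent.MP_ca1109_lc.Xh.RA
import Pool.Agent.MP_ca1109_lc.Xh.CN
import Pool.Agent.MP_ca1109_lc.Xh.HC

/-!
# Threshold gates with real weights and strings which fool phases of bounded mass only
-/

namespace Pool.Agent.MP_ca1109_lc.Pb

open Finset Pool.Agent.MP_ca1109_lc.Mpg Pool.Agent.MP_ca1109_lc.Agp
open Pool.Agent.MP_ca1109_lc.Xp Pool.Agent.MP_ca1109_lc.Xg Pool.Agent.MP_ca1109_lc.Xh
open Pool.Agent.MP_ca1109_lc.Dnf (Cube ch one E mix)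

variable {n : ℕ}

/-! ## The statistic -/

theorem rst_union {M : Finset (Finset (Fin n))} (p : Finset (Fin n) → Prop) [DecidablePred p]
    (u : Finset (Fin n) → ℝ) (x : Cube n) :
    rst M u x = rst (M.filter p) u x + rst (M.filter fun m => ¬ p m) u x := by
  unfold rst
  rw [sum_filter_add_sum_filter_not]

/-- The value of the statistic is the sum of the weights of the true monomials. -/
theorem rst_tru (H : Finset (Finset (Fin n))) (u : Finset (Fin n) → ℝ) (x : Cube n) :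
    rst H u x = ∑ m ∈ tru H x, u m := by
  classical
  unfold rst tru
  rw [sum_filter]
  refine sum_congr rfl fun m _ => ?_
  unfold mon
  split_ifs with h
  · rw [Dnf.one_true h, mul_one]
  · rw [Dnf.one_false h, mul_zero]

/-- The empty monomial and the weights `0`. -/
theorem rst_core (M : Finset (Finset (Fin n))) (u : Finset (Fin n) → ℝ) :
    ∃ a : ℝ, ∀ x, rst M u x = rst (M.filter fun m => m ≠ ∅ ∧ u m ≠ 0) u x + a := by
  classical
  refine ⟨∑ m ∈ M.filter (fun m => ¬ (m ≠ ∅ ∧ u m ≠ 0)), u m, fun x => ?_⟩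
  rw [rst_union (fun m => m ≠ ∅ ∧ u m ≠ 0)]
  congr 1
  unfold rst
  refine sum_congr rfl fun m hm => ?_
  have h1 := (mem_filter.1 hm).2
  by_cases hm0 : m = ∅
  · have h2 : Tr m x := by
      rw [hm0]
      exact fun i hi => absurd hi (notMem_empty i)
    unfold mon
    rw [Dnf.one_true h2, mul_one]
  · have h2 : u m = 0 := by
      by_contra h3
      exact h1 ⟨hm0, h3⟩
    rw [h2, zero_mul]

/-- The mass of the phases of weights at most `D`. -/
theorem tb_mass {T : Finset (Finset (Fin n))} {u : Finset (Fin n) → ℝ} {D : ℝ} (hD : 0 < D)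
    (hT : ∀ m ∈ T, |u m| ≤ D) (s : ℝ) :
    ∑ m ∈ T, ‖1 - Complex.exp ((s * (u m / D) : ℝ) * Complex.I)‖ ^ 2 / 4 * (1 / 2 : ℝ) ^ m.card ≤
      s ^ 2 / 4 * vd T u D := by
  unfold vd
  rw [mul_sum]
  refine sum_le_sum fun m hm => ?_
  have h1 : ‖1 - Complex.exp ((s * (u m / D) : ℝ) * Complex.I)‖ ≤ |s * (u m / D)| := by
    rw [norm_sub_rev, mul_comm]
    exact Real.norm_exp_I_mul_ofReal_sub_one_le
  have h2 : ‖1 - Complex.exp ((s * (u m / D) : ℝ) * Complex.I)‖ ^ 2 ≤ s ^ 2 * (u m / D) ^ 2 := by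
    rw [← mul_pow, ← sq_abs (s * (u m / D))]
    exact pow_le_pow_left₀ (norm_nonneg _) h1 2
  have h3 : (u m / D) ^ 2 ≤ 1 := by
    rw [← sq_abs, abs_div, abs_of_pos hD]
    have h4 : |u m| / D ≤ 1 := by
      rw [div_le_iff₀ hD, one_mul]
      exact hT m hm
    have h5 : 0 ≤ |u m| / D := by positivity
    nlinarith
  rw [min_eq_right h3]
  have h6 : (0 : ℝ) ≤ (1 / 2 : ℝ) ^ m.card := by positivity
  calc ‖1 - Complex.exp ((s * (u m / D) : ℝ) * Complex.I)‖ ^ 2 / 4 * (1 / 2 : ℝ) ^ m.card ≤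
        s ^ 2 * (u m / D) ^ 2 / 4 * (1 / 2 : ℝ) ^ m.card :=
        mul_le_mul_of_nonneg_right (by linarith) h6
    _ = s ^ 2 / 4 * ((1 / 2) ^ m.card * (u m / D) ^ 2) := by ring

theorem tb_heavy {M₀ : Finset (Finset (Fin n))} {u : Finset (Fin n) → ℝ} {D : ℝ} (hD : 0 < D) :
    Xp.lam (M₀.filter fun m => D < |u m|) ≤ vd M₀ u D := by
  unfold Xp.lam vd
  refine le_trans (le_of_eq (sum_congr rfl fun m hm => ?_))
    (sum_le_sum_of_subset_of_nonneg (filter_subset _ _) fun m _ _ => by positivity)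
  have h1 := (mem_filter.1 hm).2
  have h2 : 1 ≤ (u m / D) ^ 2 := by
    rw [← sq_abs, abs_div, abs_of_pos hD]
    have h4 : 1 ≤ |u m| / D := by
      rw [le_div_iff₀ hD, one_mul]
      exact h1.le
    nlinarith
  rw [min_eq_left h2, mul_one]

/-- The ramp at `θ'` with width `D`. -/
theorem tb_ramp {r : ℕ} {K R ε₂ P : ℝ} (hR0 : 0 < R) (hε₂0 : 0 < ε₂) (hε₂1 : ε₂ ≤ 1) {N : ℕ}
    (φ : Fin N → ℂ) (b : Fin N → ℤ) (hP : 0 < P)
    (hb1 : ∀ v c : ℝ, |c| ≤ R + 1 →
      ‖∑ j, φ j * Complex.exp (Complex.I * (2 * Real.pi * b j * (c + v) / P))‖ ≤ 1 + ε₂)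
    (hb2 : ∀ v c : ℝ, |v| ≤ R → |c| ≤ R + 1 →
        ‖∑ j, φ j * Complex.exp (Complex.I * (2 * Real.pi * b j * (c + v) / P)) -
          ((max 0 (min 1 (c + v)) : ℝ) : ℂ)‖ ≤ ε₂)
    {M₀ : Finset (Finset (Fin n))} {u : Finset (Fin n) → ℝ} {D : ℝ} (hM₀r : Rd r M₀)
    (hne : ∀ m ∈ M₀, m ≠ ∅) (hD : 0 < D) (hD1 : vd M₀ u D ≤ K) (θ' : ℝ) :
    ∃ f : Cube n → ℂ, HCb r K (K / 4 * ∑ j, (2 * Real.pi * b j / P) ^ 2) (1 + ∑ j, ‖φ j‖) f ∧
      (∀ x, ‖f x‖ ≤ 1 + ε₂) ∧ ∀ x,
        ‖((max 0 (min 1 ((rst M₀ u x - θ') / D + 1)) : ℝ) : ℂ) - f x‖ ≤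
          3 * one (R * D ≤ |rst (M₀.filter fun m => ¬ D < |u m|) u x -
            avg (rst (M₀.filter fun m => ¬ D < |u m|) u)|) + ε₂ := by
  classical
  set H := M₀.filter fun m => D < |u m| with hH
  set T := M₀.filter fun m => ¬ D < |u m| with hT
  have hHM : H ⊆ M₀ := filter_subset _ _
  have hTM : T ⊆ M₀ := filter_subset _ _
  have hHK : Xp.lam H ≤ K := (tb_heavy hD).trans hD1
  have hTK : vd T u D ≤ K := by
    refine le_trans ?_ hD1
    unfold vd
    exact sum_le_sum_of_subset_of_nonneg hTM fun m _ _ => by positivity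
  have hTD : ∀ m ∈ T, |u m| ≤ D := fun m hm => not_lt.1 (mem_filter.1 hm).2
  have hvd0 : 0 ≤ vd T u D := by
    unfold vd
    exact sum_nonneg fun m _ => by positivity
  have hK0 : 0 ≤ K := hvd0.trans hTK
  set a : ℝ := avg (rst T u) with ha
  -- the shift
  set cs : Finset (Finset (Fin n)) → ℝ := fun A => (∑ m ∈ A, u m + a - θ') / D + 1 with hcs
  set ψ : Fin N → Finset (Finset (Fin n)) → ℂ := fun j A =>
    if |cs A| ≤ R + 1 then Complex.exp ((2 * Real.pi * b j * cs A / P : ℝ) * Complex.I) else 0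
    with hψ
  set ψ' : Finset (Finset (Fin n)) → ℂ := fun A => if R + 1 < cs A then 1 else 0 with hψ'
  set ζ : Fin N → Finset (Fin n) → ℂ := fun j m =>
    if m ∈ T then Complex.exp ((2 * Real.pi * b j * (u m / D) / P : ℝ) * Complex.I) else 1 with hζ
  set κ : Fin N → ℂ := fun j => φ j * Complex.exp ((-(2 * Real.pi * b j * (a / D) / P) : ℝ) *
    Complex.I) with hκ
  have hψ1 : ∀ j A, ‖ψ j A‖ ≤ 1 := by
    intro j A
    simp only [hψ]
    split_ifs
    · rw [Complex.norm_exp_ofReal_mul_I]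
    · rw [norm_zero]; exact zero_le_one
  have hψ'1 : ∀ A, ‖ψ' A‖ ≤ 1 := by
    intro A
    simp only [hψ']
    split_ifs
    · rw [norm_one]
    · rw [norm_zero]; exact zero_le_one
  have hζ1 : ∀ j m, ‖ζ j m‖ = 1 := by
    intro j m
    simp only [hζ]
    split_ifs
    · rw [Complex.norm_exp_ofReal_mul_I]
    · rw [norm_one]
  have hκ1 : ∀ j, ‖κ j‖ = ‖φ j‖ := by
    intro j
    simp only [hκ]
    rw [norm_mul, Complex.norm_exp_ofReal_mul_I, mul_one]
  -- the product of the weights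
  have hpr : ∀ j x, pr (ζ j) M₀ x =
      Complex.exp ((2 * Real.pi * b j * (rst T u x / D) / P : ℝ) * Complex.I) := by
    intro j x
    unfold pr rst
    have h1 : ((2 * Real.pi * b j * ((∑ m ∈ T, u m * mon m x) / D) / P : ℝ) : ℂ) * Complex.I =
        ∑ m ∈ T, ((2 * Real.pi * b j * (u m / D) / P * mon m x : ℝ) : ℂ) * Complex.I := by
      rw [← sum_mul, ← Complex.ofReal_sum]
      congr 2
      rw [sum_div, mul_sum, sum_div]
      refine sum_congr rfl fun m _ => ?_
      ring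
    have h0 : ∀ G : Finset (Fin n) → ℂ, ∏ m ∈ T, G m =
        ∏ m ∈ M₀, if ¬ D < |u m| then G m else 1 := by
      intro G
      rw [hT]
      exact prod_filter _ _
    rw [h1, Complex.exp_sum, h0]
    refine prod_congr rfl fun m hm => ?_
    have h2 : (m ∈ T) ↔ ¬ D < |u m| := by
      rw [hT, mem_filter]
      exact ⟨fun h => h.2, fun h => ⟨hm, h⟩⟩
    unfold mon
    by_cases h3 : Tr m x
    · rw [if_pos h3, Dnf.one_true h3, mul_one]
      simp only [hζ]
      by_cases h4 : m ∈ T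
      · rw [if_pos h4, if_pos (h2.1 h4)]
      · rw [if_neg h4, if_neg fun h5 => h4 (h2.2 h5)]
    · rw [if_neg h3, Dnf.one_false h3, mul_zero, Complex.ofReal_zero, zero_mul, Complex.exp_zero]
      simp
  have hpr1 : ∀ x : Cube n, pr (fun _ => (1 : ℂ)) M₀ x = 1 := by
    intro x
    unfold pr
    simp
  -- the function
  set f : Cube n → ℂ := fun x => ∑ j, κ j * pt (ψ j) H (ζ j) M₀ x + pt ψ' H (fun _ => 1) M₀ x
    with hf
  have hfin : ∀ x, |cs (tru H x)| ≤ R + 1 → f x = ∑ j, φ j *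
      Complex.exp (Complex.I * (2 * Real.pi * b j * (cs (tru H x) + (rst T u x - a) / D : ℝ) / P)) := by
    intro x hx
    simp only [hf, pt, hpr1, mul_one]
    have h1 : ψ' (tru H x) = 0 := by
      simp only [hψ']
      rw [if_neg]
      intro h2
      have := (abs_le.1 hx).2
      linarith
    rw [h1, add_zero]
    refine sum_congr rfl fun j _ => ?_
    rw [hpr j x]
    simp only [hκ, hψ]
    rw [if_pos hx, mul_assoc, ← Complex.exp_add, ← Complex.exp_add]
    congr 2
    push_cast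
    ring
  have hfout : ∀ x, ¬ |cs (tru H x)| ≤ R + 1 → f x = ψ' (tru H x) := by
    intro x hx
    simp only [hf, pt, hpr1, mul_one]
    have h1 : ∀ j, ψ j (tru H x) = 0 := by
      intro j
      simp only [hψ]
      rw [if_neg hx]
    simp [h1]
  refine ⟨f, ?_, ?_, ?_⟩
  · -- the combination
    have hmass : ∀ j, ∑ m ∈ M₀, gap (ζ j) m * (1 / 2 : ℝ) ^ m.card ≤
        K / 4 * ∑ j, (2 * Real.pi * b j / P) ^ 2 := by
      intro j
      have h1 : ∑ m ∈ M₀, gap (ζ j) m * (1 / 2 : ℝ) ^ m.card =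
          ∑ m ∈ T, ‖1 - Complex.exp ((2 * Real.pi * b j / P * (u m / D) : ℝ) * Complex.I)‖ ^ 2 / 4 *
            (1 / 2 : ℝ) ^ m.card := by
        symm
        refine (sum_congr rfl fun m hm => ?_).trans (sum_subset hTM fun m _ hm => ?_)
        · unfold gap
          simp only [hζ]
          rw [if_pos hm]
          congr 5
          ring_nf
        · unfold gap
          simp only [hζ]
          rw [if_neg hm]
          simp
      rw [h1]
      refine (tb_mass hD hTD _).trans ?_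
      have h2 : (2 * Real.pi * b j / P) ^ 2 ≤ ∑ j, (2 * Real.pi * b j / P) ^ 2 :=
        single_le_sum (f := fun j => (2 * Real.pi * b j / P) ^ 2) (fun i _ => sq_nonneg _)
          (mem_univ j)
      have h3 : 0 ≤ (2 * Real.pi * b j / P) ^ 2 := sq_nonneg _
      calc (2 * Real.pi * b j / P) ^ 2 / 4 * vd T u D ≤ (2 * Real.pi * b j / P) ^ 2 / 4 * K :=
            mul_le_mul_of_nonneg_left hTK (by positivity)
        _ = K / 4 * (2 * Real.pi * b j / P) ^ 2 := by ring
        _ ≤ _ := mul_le_mul_of_nonneg_left h2 (by positivity)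
    refine ⟨Option (Fin N), inferInstance, fun o => o.elim 1 κ, fun _ => M₀, fun _ => H,
      fun o => o.elim ψ' ψ, fun o => o.elim (fun _ => 1) ζ, fun o => ?_, ?_, fun x => ?_⟩
    · cases o with
      | none =>
        refine ⟨hne, hM₀r, hHM, hHK, hψ'1, fun m _ => norm_one, ?_⟩
        have h1 : ∑ m ∈ M₀, gap (fun _ => (1 : ℂ)) m * (1 / 2 : ℝ) ^ m.card = 0 := by
          refine sum_eq_zero fun m _ => ?_
          unfold gap
          simp
        show ∑ m ∈ M₀, gap (fun _ => (1 : ℂ)) m * (1 / 2 : ℝ) ^ m.card ≤ _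
        rw [h1]
        exact mul_nonneg (by positivity) (sum_nonneg fun j _ => sq_nonneg _)
      | some j => exact ⟨hne, hM₀r, hHM, hHK, hψ1 j, fun m _ => hζ1 j m, hmass j⟩
    · rw [Fintype.sum_option]
      simp [hκ1]
    · rw [Fintype.sum_option]
      simp only [hf, Option.elim]
      ring
  · -- the bound
    intro x
    by_cases hx : |cs (tru H x)| ≤ R + 1
    · rw [hfin x hx]
      have h1 := hb1 ((rst T u x - a) / D) (cs (tru H x)) hx
      push_cast at h1 ⊢
      linarith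
    · rw [hfout x hx]
      linarith [hψ'1 (tru H x)]
  · -- the error
    intro x
    have hS : rst M₀ u x = ∑ m ∈ tru H x, u m + rst T u x := by
      rw [rst_union (fun m => D < |u m|), rst_tru]
    set c : ℝ := cs (tru H x) with hc'
    set v : ℝ := (rst T u x - a) / D with hv
    have hcv : c + v = (rst M₀ u x - θ') / D + 1 := by
      rw [hc', hv, hS]
      simp only [hcs]
      field_simp
      ring
    rw [← hcv]
    set g : ℝ := max 0 (min 1 (c + v)) with hg
    have hg0 : 0 ≤ g := le_max_left _ _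
    have hg1 : g ≤ 1 := max_le zero_le_one (min_le_left _ _)
    have hfx : ‖f x‖ ≤ 1 + ε₂ := by
      by_cases hx : |cs (tru H x)| ≤ R + 1
      · rw [hfin x hx]
        have h1 := hb1 ((rst T u x - a) / D) (cs (tru H x)) hx
        push_cast at h1 ⊢
        exact h1
      · rw [hfout x hx]
        linarith [hψ'1 (tru H x)]
    by_cases h1 : R * D ≤ |rst T u x - a|
    · rw [Dnf.one_true h1]
      have h2 := norm_sub_le ((g : ℝ) : ℂ) (f x)
      rw [Complex.norm_real, Real.norm_eq_abs, abs_of_nonneg hg0] at h2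
      linarith
    · rw [Dnf.one_false h1, mul_zero, zero_add]
      have hvR : |v| ≤ R := by
        rw [hv, abs_div, abs_of_pos hD, div_le_iff₀ hD]
        exact (not_le.1 h1).le
      by_cases hx : |cs (tru H x)| ≤ R + 1
      · rw [hfin x hx, norm_sub_rev]
        have h2 := hb2 ((rst T u x - a) / D) (cs (tru H x)) hvR hx
        push_cast at h2 ⊢
        exact h2
      · rw [hfout x hx]
        have hvR' := abs_le.1 hvR
        simp only [hψ']
        split_ifs with h3
        · have h4 : 1 ≤ c + v := by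
            rw [hc']
            linarith
          rw [hg, min_eq_left h4, max_eq_right zero_le_one, Complex.ofReal_one, sub_self,
            norm_zero]
          exact hε₂0.le
        · have h4 : c + v ≤ 0 := by
            rw [hc']
            rw [abs_le, not_and_or] at hx
            rcases hx with hx | hx
            · linarith [not_le.1 hx]
            · exact absurd (not_le.1 hx) h3
          rw [hg, min_eq_right (h4.trans zero_le_one), max_eq_left h4, Complex.ofReal_zero,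
            sub_self, norm_zero]
          exact hε₂0.le

/-! ## The bump -/

/-- The clamp. -/
noncomputable def cl (y : ℝ) : ℝ := max 0 (min 1 y)

theorem cl_nonneg (y : ℝ) : 0 ≤ cl y := le_max_left _ _
theorem cl_le (y : ℝ) : cl y ≤ 1 := max_le zero_le_one (min_le_left _ _)
theorem cl_one {y : ℝ} (h : 1 ≤ y) : cl y = 1 := by
  unfold cl
  rw [min_eq_left h, max_eq_right zero_le_one]
theorem cl_zero {y : ℝ} (h : y ≤ 0) : cl y = 0 := by
  unfold cl
  rw [min_eq_right (h.trans zero_le_one), max_eq_left h]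
theorem cl_mono {y z : ℝ} (h : y ≤ z) : cl y ≤ cl z :=
  max_le_max le_rfl (min_le_min le_rfl h)

theorem cl_test (y : ℝ) : |one (0 ≤ y) - cl (y + 1)| ≤ cl (y + 2) - cl (y - 1) := by
  rcases le_or_gt 0 y with h | h
  · rw [Dnf.one_true h, cl_one (by linarith), sub_self, abs_zero, sub_nonneg]
    exact cl_mono (by linarith)
  · rw [Dnf.one_false (not_le.2 h), zero_sub, abs_neg, abs_of_nonneg (cl_nonneg _),
      cl_zero (show y - 1 ≤ 0 by linarith), sub_zero]
    exact cl_mono (by linarith)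

theorem cl_bump (y : ℝ) : cl (y + 2) - cl (y - 1) ≤ one (|y - 1| ≤ 1) + one (|y + 1| ≤ 1) := by
  have h1 := Dnf.one_nonneg (|y - 1| ≤ 1)
  have h2 := Dnf.one_nonneg (|y + 1| ≤ 1)
  by_cases h3 : |y - 1| ≤ 1
  · rw [Dnf.one_true h3]
    linarith [cl_le (y + 2), cl_nonneg (y - 1)]
  by_cases h4 : |y + 1| ≤ 1
  · rw [Dnf.one_true h4]
    linarith [cl_le (y + 2), cl_nonneg (y - 1)]
  rw [Dnf.one_false h3, Dnf.one_false h4]
  rw [abs_le, not_and_or] at h3 h4
  have h5 : 2 < y ∨ y < -2 := by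
    rcases h3 with h3 | h3 <;> rcases h4 with h4 | h4
    · right; linarith [not_le.1 h4]
    · exfalso; linarith [not_le.1 h3, not_le.1 h4]
    · left; linarith [not_le.1 h3]
    · left; linarith [not_le.1 h3]
  rcases h5 with h5 | h5
  · rw [cl_one (show 1 ≤ y + 2 by linarith), cl_one (show 1 ≤ y - 1 by linarith)]
    norm_num
  · rw [cl_zero (show y + 2 ≤ 0 by linarith), cl_zero (show y - 1 ≤ 0 by linarith)]
    norm_num

theorem tb_avg_re {Ω : Type} [Fintype Ω] (g : Ω → ℂ) : (avg fun ω => (g ω).re) = (av g).re := by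
  unfold av avg
  rw [← Complex.re_sum]
  have h : ((∑ ω, g ω) / (Fintype.card Ω : ℂ)).re = (∑ ω, g ω).re / (Fintype.card Ω : ℝ) := by
    rw [← Complex.ofReal_natCast, Complex.div_ofReal_re]
  exact h.symm

/-- Thresholds are close to combinations, for every string which fools phases of bounded mass. -/
theorem thrb (r : ℕ) {ε : ℝ} (hε : 0 < ε) : ∃ K V B ε₀ : ℝ, 0 ≤ K ∧ 0 ≤ V ∧ 0 ≤ B ∧ 0 < ε₀ ∧
    ∀ (n : ℕ) (M : Finset (Finset (Fin n))) (u : Finset (Fin n) → ℝ) (θ : ℝ), Rd r M →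
      ∃ f : Cube n → ℂ, HCb r K V B f ∧ (∀ x, ‖f x‖ ≤ 1 + ε) ∧
        ∀ {Ω : Type} [Fintype Ω] [Nonempty Ω] (Y : Ω → Cube n), Foolb r K V ε₀ Y →
          (avg fun ω => ‖((one (θ ≤ rst M u (Y ω)) : ℝ) : ℂ) - f (Y ω)‖) ≤ ε := by
  classical
  -- the constants
  set ε₁ : ℝ := min (ε / 44) 1 with hε₁
  have hε₁0 : 0 < ε₁ := lt_min (by positivity) one_pos
  have hε₁1 : ε₁ ≤ 1 := min_le_right _ _
  have hε₁2 : ε₁ ≤ ε / 44 := min_le_left _ _
  obtain ⟨K₀, hanti⟩ := anti r hε₁0
  set K₁ : ℝ := max 1 K₀ with hK₁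
  have hK1 : 1 ≤ K₁ := le_max_left _ _
  obtain ⟨R, hR0, hconc⟩ := conc' r (4 * K₁) hε₁0
  obtain ⟨N, P, φ, b, hP, hb1, hb2⟩ := ramp R hR0 hε₁0
  set B₀ : ℝ := 1 + ∑ j, ‖φ j‖ with hB₀
  have hB01 : 1 ≤ B₀ := by
    have : (0 : ℝ) ≤ ∑ j, ‖φ j‖ := sum_nonneg fun _ _ => norm_nonneg _
    linarith
  set V₀ : ℝ := 4 * K₁ / 4 * ∑ j, (2 * Real.pi * b j / P) ^ 2 with hV₀
  have hV00 : 0 ≤ V₀ := mul_nonneg (by positivity) (sum_nonneg fun j _ => sq_nonneg _)
  refine ⟨4 * K₁, V₀ + K₁, B₀, ε / (4 * B₀ + 72), by positivity, by positivity, by positivity,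
    by positivity, fun n M u θ hM => ?_⟩
  set ε₀ : ℝ := ε / (4 * B₀ + 72) with hε₀
  have hε₀0 : 0 < ε₀ := by positivity
  -- the reduced family
  obtain ⟨a₀, ha₀⟩ := rst_core M u
  set M₀ := M.filter fun m => m ≠ ∅ ∧ u m ≠ 0 with hM₀
  have hM₀M : M₀ ⊆ M := filter_subset _ _
  have hM₀r : Rd r M₀ := fun i => (card_le_card (filter_subset_filter _ hM₀M)).trans (hM i)
  have hne : ∀ m ∈ M₀, m ≠ ∅ := fun m hm => (mem_filter.1 hm).2.1
  have hu0 : ∀ m ∈ M₀, u m ≠ 0 := fun m hm => (mem_filter.1 hm).2.2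
  set θ' := θ - a₀ with hθ'
  have hI : ∀ x : Cube n, (θ ≤ rst M u x) ↔ θ' ≤ rst M₀ u x := by
    intro x
    rw [ha₀ x, hθ', sub_le_iff_le_add]
  rcases le_or_gt (Xp.lam M₀) (4 * K₁) with hlam | hlam
  · -- small mass: the test is a function of the true monomials
    have hpr1 : ∀ x : Cube n, pr (fun _ => (1 : ℂ)) M₀ x = 1 := by
      intro x
      unfold pr
      simp
    have hHS : HS r (4 * K₁) (V₀ + K₁) M₀ M₀ (fun A => ((one (θ' ≤ ∑ m ∈ A, u m) : ℝ) : ℂ))
        (fun _ => 1) := by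
      refine ⟨hne, hM₀r, Subset.refl _, hlam, fun A => ?_, fun m _ => norm_one, ?_⟩
      · rw [Complex.norm_real, Real.norm_eq_abs, abs_of_nonneg (Dnf.one_nonneg _)]
        exact Dnf.one_le _
      · have h1 : ∑ m ∈ M₀, gap (fun _ => (1 : ℂ)) m * (1 / 2 : ℝ) ^ m.card = 0 := by
          refine sum_eq_zero fun m _ => ?_
          unfold gap
          simp
        rw [h1]
        positivity
    refine ⟨pt (fun A => ((one (θ' ≤ ∑ m ∈ A, u m) : ℝ) : ℂ)) M₀ (fun _ => 1) M₀,
      (HCb.single hHS).mono le_rfl le_rfl le_rfl hB01, fun x => ?_, fun Y _ => ?_⟩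
    · simp only [pt]
      rw [hpr1, mul_one, Complex.norm_real, Real.norm_eq_abs, abs_of_nonneg (Dnf.one_nonneg _)]
      linarith [Dnf.one_le (θ' ≤ ∑ m ∈ tru M₀ x, u m)]
    · have h1 : (fun ω => ‖((one (θ ≤ rst M u (Y ω)) : ℝ) : ℂ) -
          pt (fun A => ((one (θ' ≤ ∑ m ∈ A, u m) : ℝ) : ℂ)) M₀ (fun _ => 1) M₀ (Y ω)‖) =
          fun _ => (0 : ℝ) := by
        funext ω
        simp only [pt]
        rw [hpr1, mul_one, ← rst_tru]
        have h3 : one (θ ≤ rst M u (Y ω)) = one (θ' ≤ rst M₀ u (Y ω)) := by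
          rw [propext (hI (Y ω))]
        rw [h3, sub_self, norm_zero]
      rw [h1, avg_const]
      exact hε.le
  · -- the scale
    obtain ⟨D, hD, hD1, hD2⟩ := scale M₀ u (show 0 < 4 * K₁ by positivity) hu0 hlam
    have hD3 : K₀ ≤ vd M₀ u D := by
      have := le_max_right 1 K₀
      linarith
    obtain ⟨f₁, hf₁, hf₁b, hf₁e⟩ := tb_ramp hR0 hε₁0 hε₁1 φ b hP hb1 hb2 hM₀r hne hD hD1 θ'
    obtain ⟨f₂, hf₂, hf₂b, hf₂e⟩ := tb_ramp hR0 hε₁0 hε₁1 φ b hP hb1 hb2 hM₀r hne hD hD1 (θ' - D)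
    obtain ⟨f₃, hf₃, hf₃b, hf₃e⟩ := tb_ramp hR0 hε₁0 hε₁1 φ b hP hb1 hb2 hM₀r hne hD hD1
      (θ' + 2 * D)
    set T := M₀.filter fun m => ¬ D < |u m| with hT
    have hTM : T ⊆ M₀ := filter_subset _ _
    have hTr : Rd r T := fun i => (card_le_card (filter_subset_filter _ hTM)).trans (hM₀r i)
    have hTK : vd T u D ≤ 4 * K₁ := by
      refine le_trans ?_ hD1
      unfold vd
      exact sum_le_sum_of_subset_of_nonneg hTM fun m _ _ => by positivity
    have hTD : ∀ m ∈ T, |u m| ≤ D := fun m hm => not_lt.1 (mem_filter.1 hm).2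
    have hvd0 : 0 ≤ vd T u D := by
      unfold vd
      exact sum_nonneg fun m _ => by positivity
    set τ : Cube n → ℝ := fun x => one (R * D ≤ |rst T u x - avg (rst T u)|) with hτ
    -- the closeness of the phases
    have hph : ∀ {Ω : Type} [Fintype Ω] (Y : Ω → Cube n) {ε₂ : ℝ}, Foolb r (4 * K₁) (V₀ + K₁) ε₂ Y →
        ∀ t : ℝ, |t| * D ≤ 1 →
          ‖(av fun ω => pr (eu t u) T (Y ω)) - av (pr (eu t u) T)‖ ≤ ε₂ := by
      intro Ω _ Y ε₂ hY t ht
      have h1 : ∀ x : Cube n, pt (fun _ => 1) ∅ (eu t u) T x = pr (eu t u) T x := by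
        intro x
        unfold pt
        rw [one_mul]
      have h2 : HS r (4 * K₁) (V₀ + K₁) T ∅ (fun _ => 1) (eu t u) := by
        refine ⟨fun m hm => hne m (hTM hm), hTr, empty_subset _, ?_, fun _ => by simp,
          fun m _ => norm_eu t u m, ?_⟩
        · unfold Xp.lam
          simp only [sum_empty]
          positivity
        · have h3 := tb_mass hD hTD (t * D)
          have h4 : ∑ m ∈ T, gap (eu t u) m * (1 / 2 : ℝ) ^ m.card =
              ∑ m ∈ T, ‖1 - Complex.exp ((t * D * (u m / D) : ℝ) * Complex.I)‖ ^ 2 / 4 *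
                (1 / 2 : ℝ) ^ m.card := by
            refine sum_congr rfl fun m _ => ?_
            unfold gap
            rw [eu_eq]
            have h5 : t * D * (u m / D) = t * u m := by field_simp
            rw [h5]
          rw [h4]
          refine h3.trans ?_
          have h6 : (t * D) ^ 2 ≤ 1 := by
            have h7 : |t * D| ≤ 1 := by
              rw [abs_mul, abs_of_pos hD]
              exact ht
            have h8 := abs_le.1 h7
            nlinarith
          have h7 : (t * D) ^ 2 / 4 * vd T u D ≤ 1 / 4 * (4 * K₁) :=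
            mul_le_mul (by linarith) hTK hvd0 (by norm_num)
          linarith
      have h3 := hY T ∅ (fun _ => 1) (eu t u) h2
      have h4 : pt (fun _ => 1) ∅ (eu t u) T = pr (eu t u) T := funext h1
      simpa only [h4] using h3
    -- the uniform distribution
    have hU1 : ∀ θ₁ : ℝ, (avg fun x : Cube n => one (|rst M₀ u x - θ₁| ≤ D)) ≤ ε₁ := by
      intro θ₁
      have h1 := hanti n M₀ u D hM₀r hne hD hD3 (id : Cube n → Cube n) 0
        (fun t => by simp) θ₁
      simpa using h1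
    have hU2 : (avg τ) ≤ ε₁ := by
      have h1 := hconc n T u D hTr (fun m hm => hne m (hTM hm)) hD hTK hTD
        (id : Cube n → Cube n) 0 (fun t _ => by simp)
      simpa [hτ] using h1
    -- the bump
    have hg : HCb r (4 * K₁) (V₀ + K₁) (B₀ + B₀) (fun x => f₂ x - f₃ x) :=
      (hf₂.sub hf₃).mono le_rfl le_rfl (by linarith) le_rfl
    have hβ : ∀ x, cl ((rst M₀ u x - θ') / D + 2) - cl ((rst M₀ u x - θ') / D - 1) ≤
        (f₂ x - f₃ x).re + 6 * τ x + 2 * ε₁ ∧
        (f₂ x - f₃ x).re ≤ cl ((rst M₀ u x - θ') / D + 2) - cl ((rst M₀ u x - θ') / D - 1) +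
          6 * τ x + 2 * ε₁ := by
      intro x
      have h2 := hf₂e x
      have h3 := hf₃e x
      have e2 : (rst M₀ u x - (θ' - D)) / D + 1 = (rst M₀ u x - θ') / D + 2 := by
        field_simp
        ring
      have e3 : (rst M₀ u x - (θ' + 2 * D)) / D + 1 = (rst M₀ u x - θ') / D - 1 := by
        field_simp
        ring
      rw [e2] at h2
      rw [e3] at h3
      have k2 := (Complex.abs_re_le_norm _).trans h2
      have k3 := (Complex.abs_re_le_norm _).trans h3
      rw [Complex.sub_re, Complex.ofReal_re, abs_le] at k2 k3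
      rw [Complex.sub_re]
      unfold cl
      simp only [hτ]
      constructor <;> linarith [k2.1, k2.2, k3.1, k3.2]
    refine ⟨f₁, hf₁.mono le_rfl le_rfl (by linarith) le_rfl, fun x => ?_, fun {Ω} _ _ Y hY => ?_⟩
    · refine (hf₁b x).trans ?_
      linarith
    · have hY2 : (avg fun ω => τ (Y ω)) ≤ ε₁ + 4 * ε₀ :=
        hconc n T u D hTr (fun m hm => hne m (hTM hm)) hD hTK hTD Y ε₀ (hph Y hY)
      -- the pointwise estimate
      have hpt : ∀ x : Cube n, ‖((one (θ ≤ rst M u x) : ℝ) : ℂ) - f₁ x‖ ≤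
          (f₂ x - f₃ x).re + 9 * τ x + 3 * ε₁ := by
        intro x
        have h1 := hf₁e x
        have h2 := (hβ x).1
        have h3 := cl_test ((rst M₀ u x - θ') / D)
        have h4 : one (θ ≤ rst M u x) = one (0 ≤ (rst M₀ u x - θ') / D) := by
          congr 1
          rw [propext (hI x), le_div_iff₀ hD, zero_mul, sub_nonneg]
        have h5 : ((one (θ ≤ rst M u x) : ℝ) : ℂ) - f₁ x =
            ((one (0 ≤ (rst M₀ u x - θ') / D) - cl ((rst M₀ u x - θ') / D + 1) : ℝ) : ℂ) +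
              (((cl ((rst M₀ u x - θ') / D + 1) : ℝ) : ℂ) - f₁ x) := by
          rw [h4]
          push_cast
          ring
        rw [h5]
        refine (norm_add_le _ _).trans ?_
        rw [Complex.norm_real, Real.norm_eq_abs]
        have h6 : ‖((cl ((rst M₀ u x - θ') / D + 1) : ℝ) : ℂ) - f₁ x‖ ≤ 3 * τ x + ε₁ := h1
        linarith
      have k1 := avg_mono (f := fun ω => ‖((one (θ ≤ rst M u (Y ω)) : ℝ) : ℂ) - f₁ (Y ω)‖)
        (g := fun ω => (f₂ (Y ω) - f₃ (Y ω)).re + 9 * τ (Y ω) + 3 * ε₁) fun ω => hpt (Y ω)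
      rw [avg_add, avg_add, avg_mul_left, avg_const, tb_avg_re] at k1
      have k2 := hY.err hε₀0.le hg
      have k3 : (av fun ω => f₂ (Y ω) - f₃ (Y ω)).re ≤ (av fun x => f₂ x - f₃ x).re +
          (B₀ + B₀) * ε₀ := by
        have h1 := (Complex.re_le_norm _).trans k2
        rw [Complex.sub_re] at h1
        linarith
      have k4 : (av fun x : Cube n => f₂ x - f₃ x).re ≤ 10 * ε₁ := by
        rw [← tb_avg_re]
        have h1 := avg_mono (f := fun x : Cube n => (f₂ x - f₃ x).re)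
          (g := fun x => one (|rst M₀ u x - (θ' + D)| ≤ D) + one (|rst M₀ u x - (θ' - D)| ≤ D) +
            6 * τ x + 2 * ε₁) fun x => by
          have h2 := (hβ x).2
          have h3 := cl_bump ((rst M₀ u x - θ') / D)
          have e1 : (|(rst M₀ u x - θ') / D - 1| ≤ 1) = (|rst M₀ u x - (θ' + D)| ≤ D) := by
            have : (rst M₀ u x - θ') / D - 1 = (rst M₀ u x - (θ' + D)) / D := by
              field_simp
              ring
            rw [this, abs_div, abs_of_pos hD, div_le_iff₀ hD, one_mul]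
          have e2 : (|(rst M₀ u x - θ') / D + 1| ≤ 1) = (|rst M₀ u x - (θ' - D)| ≤ D) := by
            have : (rst M₀ u x - θ') / D + 1 = (rst M₀ u x - (θ' - D)) / D := by
              field_simp
              ring
            rw [this, abs_div, abs_of_pos hD, div_le_iff₀ hD, one_mul]
          rw [e1, e2] at h3
          linarith
        rw [avg_add, avg_add, avg_add, avg_mul_left, avg_const] at h1
        linarith [hU1 (θ' + D), hU1 (θ' - D)]
      have k5 : (2 * B₀ + 36) * ε₀ = ε / 2 := by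
        rw [hε₀]
        field_simp
        ring
      linarith

end Pool.Agent.MP_ca1109_lc.Pb
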